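import Mathlib
import Pool.Agent.H98.CR5

/-! At the algorithmic threshold of the CREM every search algorithm needs superlinearly many
queries. -/

namespace Pool.Agent.Results.MP_f9dad2_pr.Threshold

open MeasureTheory ProbabilityTheory Set Filter Topology Pool.Agent.H98.CR

theorem result (a : ℝ → ℝ) (h0 : ∀ t ∈ Icc (0 : ℝ) 1, 0 ≤ a t)
    (hb : ∃ B : ℝ, ∀ t ∈ Icc (0 : ℝ) 1, a t ≤ B)
    (hc : ∀ᵐ t ∂(volume.restrict (Icc (0 : ℝ) 1)), ContinuousAt a t)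
    (h1 : ∫ t in (0 : ℝ)..1, a t = 1)
    (g : ℕ → ℝ) (hg : g =o[atTop] fun N : ℕ => (N : ℝ))
    (Ω : ℕ → Type) [∀ N, MeasurableSpace (Ω N)] (P : ∀ N, Measure (Ω N))
    (X : ∀ N, Vtx N → Ω N → ℝ) (U : ∀ N, ℕ → Ω N → ℝ) (v : ∀ N, ℕ → Ω N → Vtx N)
    (h : ∀ N : ℕ, 1 ≤ N → Model N (fun k => N * prim a (k / N)) (P N) (X N) (U N) (v N))
    (C : ℝ) :
    Tendsto (fun N : ℕ => P N {ω | ∃ n : ℕ, (n : ℝ) + 1 ≤ C * N ∧ (v N n ω).1.length = N ∧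
      √(2 * Real.log 2) * (∫ t in (0 : ℝ)..1, √(a t)) * N - g N ≤ X N (v N n ω) ω})
      atTop (𝓝 0) := by
  obtain ⟨B, hB⟩ := hb
  obtain ⟨ε, hε, f, hf, hN⟩ := main (fun t ht => ⟨h0 t ht, hB t ht⟩) hc h1 ⌈C⌉₊
  refine tendsto_of_tendsto_of_tendsto_of_le_of_le' tendsto_const_nhds hf
    (Eventually.of_forall fun _ => zero_le) ?_
  filter_upwards [hN, hg.def hε, eventually_ge_atTop 1] with N h2 h3 h4
  refine le_trans (measure_mono ?_) (h2 _ _ _ _ _ _ (h N h4))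
  rintro ω ⟨n, hn, hl, hX⟩
  refine ⟨n, ?_, hl, le_trans ?_ hX⟩
  · have : (n : ℝ) < (⌈C⌉₊ * N : ℕ) := by
      push_cast
      linarith [mul_le_mul_of_nonneg_right (Nat.le_ceil C) (Nat.cast_nonneg (α := ℝ) N)]
    exact_mod_cast this
  · rw [Real.norm_eq_abs, Real.norm_natCast] at h3
    linarith [le_abs_self (g N)]

end Pool.Agent.Results.MP_f9dad2_pr.Threshold
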